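import Pool.Agent.X225.Sa.Key

/-!
Counting: the number of good permutations of `[0,n)` is `2 F_{n+2} - n - 2`.
-/

namespace X225.Sa

open Equiv

lemma a321_of {n : ℕ} {f : Perm ℕ} (fix : ∀ i, n ≤ i → f i = i)
    (h : ∀ i j k, i < j → j < k → k < n → ¬ (f j < f i ∧ f k < f j)) : A321 f := by
  intro i j k hij hjk hh
  by_cases hk : k < n
  · exact h i j k hij hjk hk hh
  · have h1 := fix k (by omega)
    by_cases hj : j < n
    · have := lt_of_fix fix hj
      omega
    · have h2 := fix j (by omega)
      omega

lemma a1342_of {n : ℕ} {f : Perm ℕ} (fix : ∀ i, n ≤ i → f i = i)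
    (h : ∀ i j k l, i < j → j < k → k < l → l < n → ¬ (f i < f l ∧ f l < f j ∧ f j < f k)) :
    A1342 f := by
  intro i j k l hij hjk hkl hh
  by_cases hk : l < n
  · exact h i j k l hij hjk hkl hk hh
  · have h1 := fix l (by omega)
    by_cases hj : j < n
    · have := lt_of_fix fix hj
      omega
    · have h2 := fix j (by omega)
      omega

lemma fix_sq {n : ℕ} {f : Perm ℕ} (fix : ∀ i, n ≤ i → f i = i) :
    ∀ i, n ≤ i → (f * f) i = i := by
  intro i hi
  rw [Perm.mul_apply, fix i hi, fix i hi]

lemma good_of {n : ℕ} {f : Perm ℕ} (fix : ∀ i, n ≤ i → f i = i)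
    (h1 : ∀ i j k, i < j → j < k → k < n → ¬ (f j < f i ∧ f k < f j))
    (h2 : ∀ i j k l, i < j → j < k → k < l → l < n → ¬ (f i < f l ∧ f l < f j ∧ f j < f k))
    (h3 : ∀ i j k, i < j → j < k → k < n → ¬ ((f * f) j < (f * f) i ∧ (f * f) k < (f * f) j))
    (h4 : ∀ i j k l, i < j → j < k → k < l → l < n →
      ¬ ((f * f) i < (f * f) l ∧ (f * f) l < (f * f) j ∧ (f * f) j < (f * f) k)) :
    Good n f :=
  ⟨fix, a321_of fix h1, a1342_of fix h2, a321_of (fix_sq fix) h3, a1342_of (fix_sq fix) h4⟩

/-! ### rotations -/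

/-- rotation of `[0,n)` by `min s n` -/
def rot (n s : ℕ) : Perm ℕ where
  toFun i := if i < n then (if i + min s n < n then i + min s n else i + min s n - n) else i
  invFun i := if i < n then (if i < min s n then i + n - min s n else i - min s n) else i
  left_inv := by
    intro i
    dsimp only
    split_ifs <;> omega
  right_inv := by
    intro i
    dsimp only
    split_ifs <;> omega

lemma rot_apply {n s : ℕ} (hs : s < n) (i : ℕ) :
    rot n s i = if i < n then (if i + s < n then i + s else i + s - n) else i := by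
  change (if i < n then (if i + min s n < n then i + min s n else i + min s n - n) else i) = _
  rw [min_eq_left hs.le]

lemma rot_fix {n s : ℕ} (hs : s < n) : ∀ i, n ≤ i → rot n s i = i := by
  intro i hi
  rw [rot_apply hs, if_neg (by omega)]

lemma rot_a1 {n s : ℕ} (hs : s < n) : A321 (rot n s) := by
  apply a321_of (rot_fix hs)
  intro i j k hij hjk hk
  rw [rot_apply hs i, rot_apply hs j, rot_apply hs k, if_pos (show i < n by omega),
    if_pos (show j < n by omega), if_pos hk]
  split_ifs <;> omega

lemma rot_a2 {n s : ℕ} (hs : s < n) : A1342 (rot n s) := by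
  apply a1342_of (rot_fix hs)
  intro i j k l hij hjk hkl hl
  rw [rot_apply hs i, rot_apply hs j, rot_apply hs k, rot_apply hs l,
    if_pos (show i < n by omega), if_pos (show j < n by omega), if_pos (show k < n by omega),
    if_pos hl]
  split_ifs <;> omega

lemma rot_sq {n s : ℕ} (hs : s < n) :
    rot n s * rot n s = rot n (if 2 * s < n then 2 * s else 2 * s - n) := by
  have hs' : (if 2 * s < n then 2 * s else 2 * s - n) < n := by split_ifs <;> omega
  ext i
  rw [Perm.mul_apply, rot_apply hs', rot_apply hs i]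
  by_cases hi : i < n
  · rw [if_pos hi, if_pos hi]
    by_cases h2 : i + s < n
    · rw [if_pos h2, rot_apply hs, if_pos h2]
      split_ifs <;> omega
    · rw [if_neg h2, rot_apply hs, if_pos (by omega)]
      split_ifs <;> omega
  · rw [if_neg hi, if_neg hi, rot_fix hs i (by omega)]

lemma rot_good {n s : ℕ} (hs : s < n) : Good n (rot n s) := by
  refine ⟨rot_fix hs, rot_a1 hs, rot_a2 hs, ?_, ?_⟩
  · rw [rot_sq hs]
    exact rot_a1 (by split_ifs <;> omega)
  · rw [rot_sq hs]
    exact rot_a2 (by split_ifs <;> omega)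

/-! ### adding a transposition at the end -/

/-- add the transposition of the points `n`, `n+1` -/
def addSwap (n : ℕ) (f : Perm ℕ) : Perm ℕ := f * Equiv.swap n (n + 1)

lemma addSwap_inj (n : ℕ) : Function.Injective (addSwap n) := fun _ _ h => mul_right_cancel h

lemma addSwap_lt {n : ℕ} {f : Perm ℕ} {i : ℕ} (hi : i < n) : addSwap n f i = f i := by
  unfold addSwap
  rw [Perm.mul_apply, Equiv.swap_apply_of_ne_of_ne (by omega) (by omega)]

lemma addSwap_gt {n : ℕ} {f : Perm ℕ} {i : ℕ} (hi : n + 2 ≤ i) : addSwap n f i = f i := by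
  unfold addSwap
  rw [Perm.mul_apply, Equiv.swap_apply_of_ne_of_ne (by omega) (by omega)]

lemma addSwap_l {n : ℕ} {f : Perm ℕ} : addSwap n f n = f (n + 1) := by
  unfold addSwap
  rw [Perm.mul_apply, Equiv.swap_apply_left]

lemma addSwap_r {n : ℕ} {f : Perm ℕ} : addSwap n f (n + 1) = f n := by
  unfold addSwap
  rw [Perm.mul_apply, Equiv.swap_apply_right]

lemma addSwap_good {n : ℕ} {f : Perm ℕ} (h : Good n f) : Good (n + 2) (addSwap n f) := by
  have e1 : addSwap n f n = n + 1 := by rw [addSwap_l, h.fix _ (by omega)]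
  have e2 : addSwap n f (n + 1) = n := by rw [addSwap_r, h.fix _ (by omega)]
  have e3 : ∀ i, i < n → addSwap n f i = f i := fun i hi => addSwap_lt hi
  have e4 : ∀ i, n + 2 ≤ i → addSwap n f i = i := fun i hi => by
    rw [addSwap_gt hi, h.fix _ (by omega)]
  have e5 : ∀ i, i < n → f i < n := fun i hi => lt_of_fix h.fix hi
  have hsq : addSwap n f * addSwap n f = f * f := by
    ext i
    rw [Perm.mul_apply, Perm.mul_apply]
    rcases Nat.lt_or_ge i n with hi | hi
    · rw [e3 i hi, e3 _ (e5 i hi)]
    · rw [h.fix i hi, h.fix i hi]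
      by_cases h1 : i = n
      · subst h1; rw [e1, e2]
      · by_cases h2 : i = n + 1
        · subst h2; rw [e2, e1]
        · rw [e4 i (by omega), e4 i (by omega)]
  refine ⟨e4, ?_, ?_, by rw [hsq]; exact h.b1, by rw [hsq]; exact h.b2⟩
  · apply a321_of e4
    intro i j k hij hjk hk
    rcases Nat.lt_or_ge k n with hk' | hk'
    · rw [e3 i (by omega), e3 j (by omega), e3 k (by omega)]
      exact h.a1 i j k hij hjk
    · rintro ⟨h1, h2⟩
      have hi : i < n := by omega
      have hi2 := e5 i hi
      rw [← e3 i hi] at hi2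
      by_cases hk2 : k = n
      · subst hk2
        have hj2 := e5 j (by omega)
        rw [← e3 j (by omega)] at hj2
        omega
      · have hk3 : k = n + 1 := by omega
        subst hk3
        by_cases hj : j = n
        · subst hj
          omega
        · have hj2 := e5 j (by omega)
          rw [← e3 j (by omega)] at hj2
          omega
  · apply a1342_of e4
    intro i j k l hij hjk hkl hl
    rcases Nat.lt_or_ge l n with hl' | hl'
    · rw [e3 i (by omega), e3 j (by omega), e3 k (by omega), e3 l (by omega)]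
      exact h.a2 i j k l hij hjk hkl
    · rintro ⟨h1, h2, h3⟩
      have hj : j < n := by omega
      have hj2 := e5 j hj
      rw [← e3 j hj] at hj2
      by_cases hl2 : l = n
      · subst hl2
        omega
      · have hl3 : l = n + 1 := by omega
        subst hl3
        omega

lemma remSwap_good {n : ℕ} {f : Perm ℕ} (h : Good (n + 2) f) (h1 : f (n + 1) = n)
    (h2 : f n = n + 1) : Good n (addSwap n f) := by
  have e5 : ∀ i, i < n → f i < n := by
    intro i hi
    have h3 := lt_of_fix h.fix (show i < n + 2 by omega)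
    have h4 : f i ≠ n := fun he => by have := f.injective (he.trans h1.symm); omega
    have h5 : f i ≠ n + 1 := fun he => by have := f.injective (he.trans h2.symm); omega
    omega
  have e3 : ∀ i, i < n → addSwap n f i = f i := fun i hi => addSwap_lt hi
  have e4 : ∀ i, n ≤ i → addSwap n f i = i := by
    intro i hi
    by_cases c1 : i = n
    · subst c1; rw [addSwap_l, h1]
    · by_cases c2 : i = n + 1
      · subst c2; rw [addSwap_r, h2]
      · rw [addSwap_gt (by omega), h.fix _ (by omega)]
  have hsq : addSwap n f * addSwap n f = f * f := by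
    ext i
    rw [Perm.mul_apply, Perm.mul_apply]
    rcases Nat.lt_or_ge i n with hi | hi
    · rw [e3 i hi, e3 _ (e5 i hi)]
    · rw [e4 i hi, e4 i hi]
      by_cases c1 : i = n
      · subst c1; rw [h2, h1]
      · by_cases c2 : i = n + 1
        · subst c2; rw [h1, h2]
        · rw [h.fix i (by omega), h.fix i (by omega)]
  refine ⟨e4, ?_, ?_, by rw [hsq]; exact h.b1, by rw [hsq]; exact h.b2⟩
  · apply a321_of e4
    intro i j k hij hjk hk
    rw [e3 i (by omega), e3 j (by omega), e3 k (by omega)]
    exact h.a1 i j k hij hjk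
  · apply a1342_of e4
    intro i j k l hij hjk hkl hl
    rw [e3 i (by omega), e3 j (by omega), e3 k (by omega), e3 l (by omega)]
    exact h.a2 i j k l hij hjk hkl

lemma addSwap_addSwap (n : ℕ) (f : Perm ℕ) : addSwap n (addSwap n f) = f := by
  unfold addSwap
  rw [mul_assoc, Equiv.swap_mul_self, mul_one]

/-! ### the recursion -/

/-- the good permutations -/
def G (n : ℕ) : Set (Perm ℕ) := {f | Good n f}

lemma G_rec {n : ℕ} (hn : 1 ≤ n) :
    G (n + 2) = (G (n + 1) ∪ addSwap n '' G n) ∪ rot (n + 2) '' Set.Ico 1 (n + 2) := by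
  ext f
  constructor
  · intro hf
    rcases key (by omega) hf with h1 | ⟨h1, h2⟩ | ⟨s, hs1, hs2, hs⟩
    · left; left
      refine ⟨?_, hf.a1, hf.a2, hf.b1, hf.b2⟩
      intro i hi
      by_cases hi2 : i = n + 1
      · subst hi2; exact h1
      · exact hf.fix i (by omega)
    · left; right
      exact ⟨addSwap n f, remSwap_good hf h1 h2, addSwap_addSwap n f⟩
    · right
      refine ⟨s, ⟨hs1, hs2⟩, ?_⟩
      ext i
      rw [rot_apply hs2]
      by_cases hi : i < n + 2
      · rw [if_pos hi, hs i hi]
      · rw [if_neg hi, hf.fix i (by omega)]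
  · rintro ((h | ⟨g, hg, rfl⟩) | ⟨s, hs, rfl⟩)
    · exact ⟨fun i hi => h.fix i (by omega), h.a1, h.a2, h.b1, h.b2⟩
    · exact addSwap_good hg
    · exact rot_good hs.2

/-- extension of a permutation of `Fin n` to `ℕ` -/
def ext (n : ℕ) (π : Perm (Fin n)) : Perm ℕ :=
  π.extendDomain (Fin.equivSubtype : Fin n ≃ {i // i < n})

lemma ext_lt {n : ℕ} (π : Perm (Fin n)) {i : ℕ} (hi : i < n) : ext n π i = π ⟨i, hi⟩ := by
  unfold ext
  rw [Equiv.Perm.extendDomain_apply_subtype (p := fun i => i < n) π Fin.equivSubtype (b := i) hi]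
  rfl

lemma ext_ge {n : ℕ} (π : Perm (Fin n)) {i : ℕ} (hi : n ≤ i) : ext n π i = i := by
  unfold ext
  rw [Equiv.Perm.extendDomain_apply_not_subtype _ _ (by omega)]

lemma ext_inj (n : ℕ) : Function.Injective (ext n) := by
  intro π ρ h
  ext ⟨i, hi⟩
  have := congrArg (fun f : Perm ℕ => f i) h
  simpa only [ext_lt _ hi] using this

lemma ext_mul {n : ℕ} (π ρ : Perm (Fin n)) : ext n (π * ρ) = ext n π * ext n ρ := by
  ext i
  rw [Perm.mul_apply]
  by_cases hi : i < n
  · rw [ext_lt _ hi, ext_lt ρ hi, ext_lt π (ρ ⟨i, hi⟩).2]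
    rfl
  · rw [ext_ge _ (by omega), ext_ge ρ (by omega), ext_ge π (by omega)]

lemma exists_ext {n : ℕ} {f : Perm ℕ} (fix : ∀ i, n ≤ i → f i = i) : ∃ π, ext n π = f := by
  let g : Fin n → Fin n := fun i => ⟨f i, lt_of_fix fix i.2⟩
  have hg : Function.Injective g := by
    intro a b hab
    have : f a = f b := congrArg Fin.val hab
    exact Fin.ext (f.injective this)
  refine ⟨Equiv.ofBijective g (Finite.injective_iff_bijective.mp hg), ?_⟩
  ext i
  by_cases hi : i < n
  · rw [ext_lt _ hi]
    rfl
  · rw [ext_ge _ (by omega), fix i (by omega)]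

lemma G_finite (n : ℕ) : (G n).Finite := by
  apply (Set.finite_range (ext n)).subset
  intro f hf
  obtain ⟨π, hπ⟩ := exists_ext hf.fix
  exact ⟨π, hπ⟩

lemma card_rec {n : ℕ} (hn : 1 ≤ n) :
    (G (n + 2)).ncard = (G (n + 1)).ncard + (G n).ncard + (n + 1) := by
  have himg : (addSwap n '' G n).ncard = (G n).ncard :=
    Set.ncard_image_of_injective _ (addSwap_inj n)
  have hrot : (rot (n + 2) '' Set.Ico 1 (n + 2)).ncard = n + 1 := by
    rw [Set.ncard_image_of_injOn]
    · rw [Set.ncard_eq_toFinset_card']
      simp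
    · intro s hs t ht hst
      have := congrArg (fun f : Perm ℕ => f 0) hst
      simp only [rot_apply hs.2, rot_apply ht.2] at this
      have h1 := hs.2
      have h2 := ht.2
      simpa [h1, h2] using this
  have hd1 : Disjoint (G (n + 1)) (addSwap n '' G n) := by
    rw [Set.disjoint_left]
    rintro f hf ⟨g, hg, rfl⟩
    have h1 := hf.fix (n + 1) le_rfl
    rw [addSwap_r, hg.fix n le_rfl] at h1
    omega
  have hd2 : Disjoint (G (n + 1) ∪ addSwap n '' G n) (rot (n + 2) '' Set.Ico 1 (n + 2)) := by
    rw [Set.disjoint_left]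
    rintro f hf ⟨s, hs, rfl⟩
    have hs1 := hs.1
    have hs2 := hs.2
    have e1 : rot (n + 2) s (n + 1) = s - 1 := by
      rw [rot_apply hs2, if_pos (by omega), if_neg (by omega)]; omega
    rcases hf with hf | ⟨g, hg, hgr⟩
    · have h1 := hf.fix (n + 1) le_rfl
      omega
    · have h1 : rot (n + 2) s (n + 1) = n := by
        rw [← hgr, addSwap_r, hg.fix n le_rfl]
      have h2 : rot (n + 2) s n = n + 1 := by
        rw [← hgr, addSwap_l, hg.fix (n + 1) (by omega)]
      have e2 : rot (n + 2) s n = n + s - (n + 2) := by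
        rw [rot_apply hs2, if_pos (by omega), if_neg (by omega)]
      omega
  have hf2 : (addSwap n '' G n).Finite := (G_finite n).image _
  rw [G_rec hn, Set.ncard_union_eq hd2 ((G_finite _).union hf2) ((Set.finite_Ico _ _).image _),
    Set.ncard_union_eq hd1 (G_finite _) hf2, himg, hrot]

lemma card_one : (G 1).ncard = 1 := by
  have : G 1 = {1} := by
    ext f
    constructor
    · intro hf
      rw [Set.mem_singleton_iff]
      ext i
      by_cases hi : 1 ≤ i
      · rw [hf.fix i hi]; rfl
      · have : i = 0 := by omega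
        subst this
        have := lt_of_fix hf.fix (show (0 : ℕ) < 1 by omega)
        rw [Perm.one_apply]; omega
    · rintro rfl
      apply good_of
      · intro i _; rfl
      all_goals intros; omega
  rw [this, Set.ncard_singleton]

lemma card_two : (G 2).ncard = 2 := by
  have : G 2 = {1, Equiv.swap 0 1} := by
    ext f
    constructor
    · intro hf
      have h0 := lt_of_fix hf.fix (show (0 : ℕ) < 2 by omega)
      have h1 := lt_of_fix hf.fix (show (1 : ℕ) < 2 by omega)
      have hne : f 0 ≠ f 1 := fun he => by have := f.injective he; omega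
      by_cases hc : f 0 = 0
      · left
        ext i
        rw [Perm.one_apply]
        by_cases hi : 2 ≤ i
        · exact hf.fix i hi
        · have : i = 0 ∨ i = 1 := by omega
          rcases this with rfl | rfl <;> omega
      · right
        rw [Set.mem_singleton_iff]
        ext i
        by_cases hi : 2 ≤ i
        · rw [hf.fix i hi, Equiv.swap_apply_of_ne_of_ne (by omega) (by omega)]
        · have : i = 0 ∨ i = 1 := by omega
          rcases this with rfl | rfl
          · rw [Equiv.swap_apply_left]; omega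
          · rw [Equiv.swap_apply_right]; omega
    · rintro (rfl | h)
      · apply good_of
        · intro i _; rfl
        all_goals intros; omega
      · rw [Set.mem_singleton_iff] at h
        subst h
        apply good_of
        · intro i hi
          rw [Equiv.swap_apply_of_ne_of_ne (by omega) (by omega)]
        all_goals intros; omega
  rw [this, Set.ncard_pair]
  intro h
  have := congrArg (fun f : Perm ℕ => f 0) h
  simp at this

/-- **Count** -/
theorem card_G : ∀ n, 1 ≤ n → (G n).ncard + n + 2 = 2 * Nat.fib (n + 2)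
  | 0, h => by omega
  | 1, _ => by rw [card_one]; decide
  | 2, _ => by rw [card_two]; decide
  | (n + 3), _ => by
    have h1 := card_G (n + 1) (by omega)
    have h2 := card_G (n + 2) (by omega)
    have h3 := card_rec (n := n + 1) (by omega)
    have h4 : Nat.fib (n + 3 + 2) = Nat.fib (n + 1 + 2) + Nat.fib (n + 2 + 2) := by
      rw [show n + 3 + 2 = (n + 3) + 2 from rfl, Nat.fib_add_two]
    rw [show n + 3 = n + 1 + 2 from rfl, h3, show n + 1 + 2 + 2 = n + 3 + 2 from rfl, h4]
    rw [show n + 1 + 1 = n + 2 from rfl]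
    omega

end X225.Sa
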