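import Mathlib

/-!
Permutations of `ℕ` fixing everything from `N` on, which together with their squares avoid
`321` and `1342`: either the last point is fixed, or the last two points are swapped, or the
permutation is a rotation of `[0,N)`.
-/

namespace X225.Sa

open Equiv

/-- no occurrence of `321` -/
def A321 (f : Perm ℕ) : Prop := ∀ i j k, i < j → j < k → ¬ (f j < f i ∧ f k < f j)

/-- no occurrence of `1342` -/
def A1342 (f : Perm ℕ) : Prop :=
  ∀ i j k l, i < j → j < k → k < l → ¬ (f i < f l ∧ f l < f j ∧ f j < f k)

/-- the permutation and its square avoid `321` and `1342`, and everything from `n` on is fixed -/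
structure Good (n : ℕ) (f : Perm ℕ) : Prop where
  fix : ∀ i, n ≤ i → f i = i
  a1 : A321 f
  a2 : A1342 f
  b1 : A321 (f * f)
  b2 : A1342 (f * f)

lemma lt_of_fix {n : ℕ} {f : Perm ℕ} (h : ∀ i, n ≤ i → f i = i) {i : ℕ} (hi : i < n) :
    f i < n := by
  by_contra hc
  push Not at hc
  have h1 := h _ hc
  have h2 := f.injective h1
  omega

lemma mono_lb (f : ℕ → ℕ) (a : ℕ) : ∀ d, (∀ i, a ≤ i → i < a + d → f i < f (i + 1)) →
    f a + d ≤ f (a + d) := by
  intro d
  induction d with
  | zero => intro _; simp
  | succ d ih =>
    intro h
    have h1 := ih (fun i hi hid => h i hi (by omega))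
    have h2 := h (a + d) (by omega) (by omega)
    have h3 : a + (d + 1) = a + d + 1 := by ring
    rw [h3]
    omega

lemma mono_lb' (f : ℕ → ℕ) {a b : ℕ} (hab : a ≤ b)
    (h : ∀ i, a ≤ i → i < b → f i < f (i + 1)) : f a + (b - a) ≤ f b := by
  have := mono_lb f a (b - a) (fun i h1 h2 => h i h1 (by omega))
  rwa [Nat.add_sub_cancel' hab] at this

lemma stable {f : Perm ℕ} {j : ℕ} (h : ∀ i, i < j → f i < j) {i : ℕ} (hi : j ≤ i) : j ≤ f i := by
  by_contra hc
  push Not at hc
  have hsub : (Finset.range j).image f ⊆ Finset.range j := by
    intro x hx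
    simp only [Finset.mem_image, Finset.mem_range] at hx ⊢
    obtain ⟨y, hy, rfl⟩ := hx
    exact h y hy
  have heq : (Finset.range j).image f = Finset.range j :=
    Finset.eq_of_subset_of_card_le hsub
      (by rw [Finset.card_image_of_injective _ f.injective])
  have : f i ∈ (Finset.range j).image f := by rw [heq]; simpa using hc
  simp only [Finset.mem_image, Finset.mem_range] at this
  obtain ⟨y, hy, hyi⟩ := this
  have := f.injective hyi
  omega

/-- the case when the last entry is the second largest value -/
lemma key_one {N : ℕ} (hN : 3 ≤ N) {f : Perm ℕ} (h : Good N f) (ht : f (N - 1) = N - 2) :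
    f (N - 2) = N - 1 ∨ (∀ i, i < N → f i = if i + (N - 1) < N then i + (N - 1) else i + (N - 1) - N) := by
  obtain ⟨j, hj⟩ := f.surjective (N - 1)
  have hjN : j < N := by
    by_contra hc
    have := h.fix j (by omega)
    omega
  have hj1 : j ≠ N - 1 := by
    rintro rfl
    omega
  by_cases hj2 : j = N - 2
  · left; rw [← hj2]; exact hj
  right
  have hinc : ∀ a b, j < a → a < b → b < N → f a < f b := by
    intro a b ha hab hb
    by_contra hc
    have hne : f a ≠ f b := fun he => by have := f.injective he; omega
    have h1 : f a < N := lt_of_fix h.fix (by omega)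
    have h2 : f a ≠ N - 1 := by
      intro he
      have := f.injective (he.trans hj.symm)
      omega
    exact h.a1 j a b ha hab ⟨by omega, by omega⟩
  by_cases hj0 : j = 0
  · subst hj0
    intro i hi
    by_cases hi0 : i = 0
    · subst hi0
      rw [if_pos (by omega), hj]; omega
    · rw [if_neg (by omega)]
      have e1 := mono_lb' f (a := 1) (b := i) (by omega)
        (fun x hx1 hx2 => hinc x (x + 1) (by omega) (by omega) (by omega))
      have e2 := mono_lb' f (a := i) (b := N - 1) (by omega)
        (fun x hx1 hx2 => hinc x (x + 1) (by omega) (by omega) (by omega))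
      omega
  · exfalso
    have hu : f (N - 2) < N - 2 := by
      have := hinc (N - 2) (N - 1) (by omega) (by omega) (by omega)
      omega
    obtain ⟨a, ha⟩ := f.surjective j
    have haN : a < N := by
      by_contra hc
      have := h.fix a (by omega)
      omega
    have ha1 : a ≠ N - 1 := by rintro rfl; omega
    have ha2 : a ≠ j := by rintro rfl; omega
    have sj : (f * f) j = N - 2 := by rw [Perm.mul_apply, hj, ht]
    have sa : (f * f) a = N - 1 := by rw [Perm.mul_apply, ha, hj]
    have sN : (f * f) (N - 1) = f (N - 2) := by rw [Perm.mul_apply, ht]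
    have haj : j < a := by
      by_contra hc
      exact h.b1 a j (N - 1) (by omega) (by omega) ⟨by omega, by omega⟩
    have hst : ∀ i, i < j → f i < j := by
      intro i hi
      by_contra hc
      have h1 : f i ≠ j := fun he => by have := f.injective (he.trans ha.symm); omega
      have h2 : f i ≠ N - 1 := fun he => by have := f.injective (he.trans hj.symm); omega
      have h3 : f i ≠ N - 2 := fun he => by have := f.injective (he.trans ht.symm); omega
      have h4 : f i < N := lt_of_fix h.fix (by omega)
      have h5 : f (f i) < f (N - 2) := hinc (f i) (N - 2) (by omega) (by omega) (by omega)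
      have s0 : (f * f) i = f (f i) := rfl
      exact h.b2 i j a (N - 1) hi haj (by omega) ⟨by omega, by omega, by omega⟩
    have h6 : j ≤ f (N - 2) := stable hst (by omega)
    have h7 : f (f 0) < j := hst _ (hst 0 (by omega))
    have s0 : (f * f) 0 = f (f 0) := rfl
    exact h.b2 0 j a (N - 1) (by omega) haj (by omega) ⟨by omega, by omega, by omega⟩

/-- the case when the last entry is at most `N-3` -/
lemma key_two {N : ℕ} (hN : 3 ≤ N) {f : Perm ℕ} (h : Good N f) {t : ℕ} (ht : f (N - 1) = t)
    (htN : t + 3 ≤ N) :
    ∀ i, i < N → f i = if i + (t + 1) < N then i + (t + 1) else i + (t + 1) - N := by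
  obtain ⟨j, hj⟩ := f.surjective (N - 1)
  obtain ⟨q, hq⟩ := f.surjective (N - 2)
  have hjN : j < N := by
    by_contra hc
    have := h.fix j (by omega)
    omega
  have hqN : q < N := by
    by_contra hc
    have := h.fix q (by omega)
    omega
  have hj1 : j ≠ N - 1 := by rintro rfl; omega
  have hq1 : q ≠ N - 1 := by rintro rfl; omega
  have hqj : q < j := by
    by_contra hc
    have : q ≠ j := by rintro rfl; omega
    exact h.a1 j q (N - 1) (by omega) (by omega) ⟨by omega, by omega⟩
  have hbig : ∀ x y, x < y → y < N - 1 → t < f x → t < f y → f x < f y := by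
    intro x y hxy hy h1 h2
    by_contra hc
    have hne : f x ≠ f y := fun he => by have := f.injective he; omega
    exact h.a1 x y (N - 1) hxy hy ⟨by omega, by omega⟩
  have hlow : ∀ x, x ≤ q → t < f x := by
    intro x hx
    rcases Nat.lt_or_ge x q with hx' | hx'
    · by_contra hc
      have hne : f x ≠ t := fun he => by have := f.injective (he.trans ht.symm); omega
      exact h.a2 x q j (N - 1) hx' hqj (by omega) ⟨by omega, by omega, by omega⟩
    · have : x = q := by omega
      subst this; omega
  -- `q = N - 3 - t`
  have hq2 : t + 1 + q ≤ N - 2 := by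
    have := mono_lb' f (a := 0) (b := q) (by omega)
      (fun x _ hx2 => hbig x (x + 1) (by omega) (by omega) (hlow x (by omega)) (hlow (x + 1) (by omega)))
    have h0 := hlow 0 (by omega)
    omega
  have hq3 : N - 3 - t ≤ q := by
    have := mono_lb' (fun v => f.symm v) (a := t + 1) (b := N - 2) (by omega) (by
      intro v hv1 hv2
      have e1 : f (f.symm v) = v := f.apply_symm_apply v
      have e2 : f (f.symm (v + 1)) = v + 1 := f.apply_symm_apply (v + 1)
      by_contra hc
      have hne : f.symm v ≠ f.symm (v + 1) := fun he => by
        have := f.symm.injective he; omega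
      have h3 : f.symm v < N := by
        by_contra hc'
        have := h.fix _ (not_lt.mp hc')
        omega
      have h4 : f.symm v ≠ N - 1 := by
        intro he
        rw [he] at e1; omega
      have := hbig (f.symm (v + 1)) (f.symm v) (by omega) (by omega) (by omega) (by omega)
      omega)
    have e : f.symm (N - 2) = q := by rw [← hq, f.symm_apply_apply]
    simp only [e] at this
    omega
  have hq4 : q + t + 3 = N := by omega
  have hfirst : ∀ i, i ≤ q → f i = i + (t + 1) := by
    intro i hi
    have e1 := mono_lb' f (a := 0) (b := i) (by omega)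
      (fun x _ hx2 => hbig x (x + 1) (by omega) (by omega) (hlow x (by omega)) (hlow (x + 1) (by omega)))
    have e2 := mono_lb' f (a := i) (b := q) (by omega)
      (fun x _ hx2 => hbig x (x + 1) (by omega) (by omega) (hlow x (by omega)) (hlow (x + 1) (by omega)))
    have h0 := hlow 0 (by omega)
    omega
  have hsmall : ∀ x, q < x → x < N → x ≠ j → f x ≤ t := by
    intro x hx1 hx2 hx3
    by_contra hc
    have h1 : f x ≠ N - 1 := fun he => by have := f.injective (he.trans hj.symm); omega
    have h2 : f x < N := lt_of_fix h.fix hx2
    have h3 := hfirst (f x - (t + 1)) (by omega)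
    have h4 : f x - (t + 1) + (t + 1) = f x := by omega
    rw [h4] at h3
    have := f.injective h3
    omega
  have hinc : ∀ x y, q < x → x < y → y < N → x ≠ j → y ≠ j → f x < f y := by
    intro x y hx hxy hy hxj hyj
    by_contra hc
    have hne : f x ≠ f y := fun he => by have := f.injective he; omega
    have h1 := hsmall x hx (by omega) hxj
    exact h.a1 q x y hx hxy ⟨by omega, by omega⟩
  have hafter1 : j ≤ q + 1 ∨ q + 1 + 0 ≤ j - 1 := by omega
  have hj1' : j - (q + 1) ≤ f (j + 1) := by
    by_cases hc : j = q + 1
    · omega
    · have e1 := mono_lb' f (a := q + 1) (b := j - 1) (by omega)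
        (fun x hx1 hx2 => hinc x (x + 1) (by omega) (by omega) (by omega) (by omega) (by omega))
      have e2 := hinc (j - 1) (j + 1) (by omega) (by omega) (by omega) (by omega) (by omega)
      omega
  have hlast : ∀ x, j < x → x < N → f x + (q + 2) = x := by
    intro x hx1 hx2
    have e1 := mono_lb' f (a := j + 1) (b := x) (by omega)
      (fun y hy1 hy2 => hinc y (y + 1) (by omega) (by omega) (by omega) (by omega) (by omega))
    have e2 := mono_lb' f (a := x) (b := N - 1) (by omega)
      (fun y hy1 hy2 => hinc y (y + 1) (by omega) (by omega) (by omega) (by omega) (by omega))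
    omega
  have hmid : ∀ x, q < x → x < j → f x + (q + 1) = x := by
    intro x hx1 hx2
    have e1 := mono_lb' f (a := q + 1) (b := x) (by omega)
      (fun y hy1 hy2 => hinc y (y + 1) (by omega) (by omega) (by omega) (by omega) (by omega))
    have e2 := mono_lb' f (a := x) (b := j - 1) (by omega)
      (fun y hy1 hy2 => hinc y (y + 1) (by omega) (by omega) (by omega) (by omega) (by omega))
    have e3 := hinc (j - 1) (j + 1) (by omega) (by omega) (by omega) (by omega) (by omega)
    have e4 := hlast (j + 1) (by omega) (by omega)
    omega
  by_cases hjq : j = q + 1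
  · intro i hi
    by_cases h1 : i ≤ q
    · rw [if_pos (by omega)]; exact hfirst i h1
    · by_cases h2 : i = j
      · subst h2
        rw [if_pos (by omega), hj]; omega
      · rw [if_neg (by omega)]
        have := hlast i (by omega) hi
        omega
  · exfalso
    have s1 : (f * f) (q + 1) = t + 1 := by
      have e := hmid (q + 1) (by omega) (by omega)
      have e' : f (q + 1) = 0 := by omega
      rw [Perm.mul_apply, e', hfirst 0 (by omega)]; omega
    have sj : (f * f) j = t := by rw [Perm.mul_apply, hj, ht]
    have sq : (f * f) q = f (N - 2) := by rw [Perm.mul_apply, hq]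
    by_cases hA : j = N - 2
    · have e : f (N - 2) = N - 1 := by rw [← hA, hj]
      exact h.b1 q (q + 1) j (by omega) (by omega) ⟨by omega, by omega⟩
    · have e2 := hlast (N - 2) (by omega) (by omega)
      by_cases hq0 : q = 0
      · -- `(B2)`
        have e3 := hlast (j + 1) (by omega) (by omega)
        have e4 : f (j + 1) = j - 1 := by omega
        have e5 := hmid (j - 1) (by omega) (by omega)
        have s3 : (f * f) (j + 1) = f (j - 1) := by rw [Perm.mul_apply, e4]
        exact h.b1 (q + 1) j (j + 1) (by omega) (by omega) ⟨by omega, by omega⟩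
      · by_cases hj3 : q + 3 ≤ j
        · have e3 := hmid (q + 2) (by omega) (by omega)
          have e4 : f (q + 2) = 1 := by omega
          have s3 : (f * f) (q + 2) = t + 2 := by
            rw [Perm.mul_apply, e4, hfirst 1 (by omega)]; omega
          exact h.b2 q (q + 1) (q + 2) j (by omega) (by omega) (by omega)
            ⟨by omega, by omega, by omega⟩
        · have hj4 : j = q + 2 := by omega
          by_cases htq : t + 1 ≤ q + 2
          · have e3 := hfirst (q + 1 - t) (by omega)
            have e4 : f (q + 1 - t) = j := by omega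
            have s3 : (f * f) (q + 1 - t) = N - 1 := by rw [Perm.mul_apply, e4, hj]
            exact h.b1 (q + 1 - t) (q + 1) j (by omega) (by omega) ⟨by omega, by omega⟩
          · have e3 := hlast (2 * q + 3) (by omega) (by omega)
            have e4 : f (2 * q + 3) = q + 1 := by omega
            have e5 := hmid (q + 1) (by omega) (by omega)
            have s3 : (f * f) (2 * q + 3) = 0 := by
              rw [Perm.mul_apply, e4]; omega
            exact h.b1 (q + 1) j (2 * q + 3) (by omega) (by omega) ⟨by omega, by omega⟩

/-- **Key lemma** -/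
lemma key {N : ℕ} (hN : 3 ≤ N) {f : Perm ℕ} (h : Good N f) :
    f (N - 1) = N - 1 ∨ (f (N - 1) = N - 2 ∧ f (N - 2) = N - 1) ∨
      ∃ s, 1 ≤ s ∧ s < N ∧ ∀ i, i < N → f i = if i + s < N then i + s else i + s - N := by
  have h1 : f (N - 1) < N := lt_of_fix h.fix (by omega)
  by_cases c1 : f (N - 1) = N - 1
  · exact Or.inl c1
  · by_cases c2 : f (N - 1) = N - 2
    · rcases key_one hN h c2 with h2 | h2
      · exact Or.inr (Or.inl ⟨c2, h2⟩)
      · exact Or.inr (Or.inr ⟨N - 1, by omega, by omega, h2⟩)
    · exact Or.inr (Or.inr ⟨f (N - 1) + 1, by omega, by omega, key_two hN h rfl (by omega)⟩)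

end X225.Sa
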